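import Mathlib
import Pool.Agent.H312.Nu.Nu3

set_option autoImplicit false

namespace Pool.Agent.Results.MP_c222f6_nt.InfinitelyManyMaximal

open Finset Pool.Agent.H312.Nu

/-- `ν_k(m)`: the number of partitions of `m` in which exactly `k` distinct part sizes occur. -/
def nuK (k m : ℕ) : ℕ :=
  ((Finset.univ : Finset (Nat.Partition m)).filter (fun P => P.parts.toFinset.card = k)).card

/-- The progression `P(A,B) = {A n + B : n ≥ 0}`. -/
def prog (A B : ℕ) : Set ℕ := {x | ∃ n : ℕ, x = A * n + B}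

/-- `(A,B)` is a `(ν_k, M)`-progression. -/
def IsProg (k M A B : ℕ) : Prop :=
  1 ≤ A ∧ 1 ≤ B ∧ B ≤ A ∧ ∀ n : ℕ, M ∣ nuK k (A * n + B)

/-- `(A,B)` is a maximal `(ν_k, M)`-progression. -/
def IsMaximal (k M A B : ℕ) : Prop :=
  IsProg k M A B ∧ ¬ ∃ A' B' : ℕ, IsProg k M A' B' ∧ prog A B ⊂ prog A' B'

theorem nu26 : nu 2 6 = 6 := by
  have h1 := card_tset_split 6
  have h2 := card_tset_diag 6 (by norm_num)
  have h3 := card_tset 6
  have e1 : (Nat.divisors 6).card = 4 := by decide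
  have e2 : ∑ x ∈ Nat.divisors 6, x = 12 := by decide
  have e3 : ∑ i ∈ Icc 1 (6 - 1), (Nat.divisors i).card * (Nat.divisors (6 - i)).card = 20 := by
    decide
  rw [e3] at h3
  rw [e1, e2] at h2
  omega

theorem cset6 {N : ℕ} (hN : 6 ≤ N) : (cset N 6).card = 3 := by
  have : cset N 6 = {(0, 0, 1), (0, 1, 0), (1, 0, 0)} := by
    ext ⟨a, b, c⟩
    rw [cset, mem_filter, mem_product, mem_product, mem_range, mem_range, mem_range]
    simp only [mem_insert, mem_singleton, Prod.mk.injEq]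
    constructor
    · rintro ⟨-, h⟩
      have ha : a ≤ 1 := by nlinarith
      have hb : b ≤ 1 := by nlinarith
      have hc : c ≤ 1 := by nlinarith
      interval_cases a <;> interval_cases b <;> interval_cases c <;> simp at h ⊢
    · rintro (⟨rfl, rfl, rfl⟩ | ⟨rfl, rfl, rfl⟩ | ⟨rfl, rfl, rfl⟩) <;>
        refine ⟨⟨by omega, by omega, by omega⟩, by norm_num⟩
  rw [this]
  rfl

theorem nu36 : ¬ 2 ∣ nu 3 6 := by
  intro h
  obtain ⟨N, hN, u, v, h1, h2⟩ := pbar_formula (m := 6) (by norm_num)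
  rw [cset6 hN] at h2
  have h3 := pbar_mod 6
  rw [h1, nu_zero (by norm_num), nu_one (by norm_num), nu26,
    show (Nat.divisors 6).card = 4 by decide] at h3
  obtain ⟨c, hc⟩ := h
  rw [hc] at h3
  have h4 : ((v - 1 : ℤ) : ZMod 2) = 0 := by
    push_cast
    rw [h2]; rfl
  rw [ZMod.intCast_zmod_eq_zero_iff_dvd] at h4
  obtain ⟨v', hv'⟩ := h4
  have hv : v = 2 * v' + 1 := by push_cast at hv'; linarith
  rw [hv] at h3
  have h5 : ((8 : ℕ) : ZMod 16) = 0 := by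
    push_cast at h3 ⊢
    have e16 : (16 : ZMod 16) = 0 := rfl
    linear_combination -h3 + (u - v' - 2 - c) * e16
  rw [ZMod.natCast_eq_zero_iff] at h5
  omega

/-- the family `(8 p², 6 p)` -/
theorem family {p : ℕ} (hp : p.Prime) (hp8 : p % 8 = 5) :
    IsProg 2 4 (8 * p ^ 2) (6 * p) ∧ IsProg 3 2 (8 * p ^ 2) (6 * p) := by
  have hp0 := hp.pos
  have h5 : 5 ≤ p := by omega
  have hle : 6 * p ≤ 8 * p ^ 2 := by nlinarith
  have key : ∀ n : ℕ, 8 * p ^ 2 * n + 6 * p = 2 * p * (4 * p * n + 3) := fun n => by ring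
  have hw : ∀ n : ℕ, (4 * p * n + 3) % 4 = 3 := fun n => by
    have : 4 * p * n + 3 = 4 * (p * n) + 3 := by ring
    omega
  have hpw : ∀ n : ℕ, ¬ p ∣ 4 * p * n + 3 := fun n h => by
    have h1 : p ∣ 4 * p * n := ⟨4 * n, by ring⟩
    have h2 := (Nat.dvd_add_right h1).mp h
    have := Nat.le_of_dvd (by norm_num) h2
    omega
  have h1A : 1 ≤ 8 * p ^ 2 := by omega
  refine ⟨⟨h1A, by omega, hle, fun n => ?_⟩, ⟨h1A, by omega, hle, fun n => ?_⟩⟩
  · exact nu2_mod4 hp hp8 (key n) (hw n) (hpw n)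
  · exact nu3_even hp hp8 (key n) (hw n) (hpw n)

theorem prog_sub {A B A' B' : ℕ} (hA' : 1 ≤ A') (h : prog A B ⊆ prog A' B') :
    A' ∣ A := by
  obtain ⟨n0, h0⟩ := h (show B ∈ prog A B from ⟨0, by simp⟩)
  obtain ⟨n1, h1⟩ := h (show A * 1 + B ∈ prog A B from ⟨1, rfl⟩)
  have hle : n0 ≤ n1 := by
    by_contra hc
    push Not at hc
    have : A' * n1 < A' * n0 := Nat.mul_lt_mul_of_pos_left hc hA'
    omega
  refine ⟨n1 - n0, ?_⟩
  have : A' * (n1 - n0) = A' * n1 - A' * n0 := Nat.mul_sub A' n1 n0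
  omega

theorem prog_ssub {k M A B A' B' : ℕ} (h1 : IsProg k M A B) (h2 : IsProg k M A' B')
    (h : prog A B ⊂ prog A' B') : A' < A := by
  have hd := prog_sub h2.1 h.1
  have hle := Nat.le_of_dvd h1.1 hd
  rcases lt_or_eq_of_le hle with hlt | heq
  · exact hlt
  · exfalso
    subst heq
    obtain ⟨n0, h0⟩ := h.1 (show B ∈ prog A' B from ⟨0, by simp⟩)
    obtain ⟨-, ha, hb, -⟩ := h1
    obtain ⟨-, ha', hb', -⟩ := h2
    have hn0 : n0 = 0 := by
      by_contra hne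
      have : 1 ≤ n0 := Nat.one_le_iff_ne_zero.mpr hne
      nlinarith
    subst hn0
    have : B = B' := by simpa using h0
    subst this
    exact h.2 (Set.Subset.refl _)

theorem exists_maximal (k M : ℕ) : ∀ A : ℕ, ∀ B : ℕ, IsProg k M A B →
    ∃ A' B' : ℕ, IsMaximal k M A' B' ∧ prog A B ⊆ prog A' B' := by
  intro A
  induction A using Nat.strong_induction_on with
  | _ A ih =>
    intro B hB
    by_cases hmax : ∃ A' B' : ℕ, IsProg k M A' B' ∧ prog A B ⊂ prog A' B'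
    · obtain ⟨A', B', h1, h2⟩ := hmax
      obtain ⟨A'', B'', h3, h4⟩ := ih A' (prog_ssub hB h1 h2) B' h1
      exact ⟨A'', B'', h3, h2.1.trans h4⟩
    · exact ⟨A, B, ⟨hB, hmax⟩, Set.Subset.refl _⟩

theorem infinite_of_family (k M : ℕ) (hfam : ∀ p : ℕ, p.Prime → p % 8 = 5 →
    IsProg k M (8 * p ^ 2) (6 * p)) (h6 : ¬ M ∣ nuK k 6) :
    Set.Infinite {q : ℕ × ℕ | IsMaximal k M q.1 q.2} := by
  intro hfin
  have hfin2 := hfin.image (fun q => q.1)
  obtain ⟨b, hb⟩ := hfin2.bddAbove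
  obtain ⟨p, hpb, hp, hpm⟩ := Nat.forall_exists_prime_gt_and_eq_mod
    (q := 8) (a := (5 : ZMod 8)) (by decide) (b + 8)
  have hp8 : p % 8 = 5 := by
    have : ((p : ℕ) : ZMod 8) = ((5 : ℕ) : ZMod 8) := by rw [hpm]; rfl
    rw [ZMod.natCast_eq_natCast_iff] at this
    exact this
  obtain ⟨A, B, hmax, hsub⟩ := exists_maximal k M _ _ (hfam p hp hp8)
  have hAb : A ≤ b := hb ⟨(A, B), hmax, rfl⟩
  obtain ⟨⟨hA1, hB1, hBA, hdiv⟩, -⟩ := hmax
  have hdvd := prog_sub hA1 hsub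
  have hcop : Nat.Coprime A (p ^ 2) := by
    refine Nat.Coprime.pow_right 2 ?_
    rw [Nat.coprime_comm, Nat.Prime.coprime_iff_not_dvd hp]
    intro h
    have := Nat.le_of_dvd hA1 h
    omega
  have hA8 : A ∣ 8 := hcop.dvd_of_dvd_mul_right hdvd
  obtain ⟨n, hn⟩ := hsub (show 6 * p ∈ prog (8 * p ^ 2) (6 * p) from ⟨0, by simp⟩)
  have hAle := Nat.le_of_dvd (by norm_num) hA8
  -- 6 lies in the progression
  have h6mem : ∃ n0 : ℕ, 6 = A * n0 + B := by
    obtain ⟨r, hr⟩ : ∃ r, p = 8 * r + 5 := ⟨p / 8, by omega⟩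
    clear hsub hAb hdiv hdvd hcop
    interval_cases A
    · exact ⟨6 - B, by omega⟩
    · exact ⟨(6 - B) / 2, by omega⟩
    · omega
    · exact ⟨(6 - B) / 4, by omega⟩
    · omega
    · omega
    · omega
    · exact ⟨(6 - B) / 8, by omega⟩
  obtain ⟨n0, hn0⟩ := h6mem
  apply h6
  rw [hn0]
  exact hdiv n0

/-- There are infinitely many maximal `(ν_2, 4)`-progressions and infinitely many maximal
`(ν_3, 2)`-progressions. -/
theorem result :
    Set.Infinite {q : ℕ × ℕ | IsMaximal 2 4 q.1 q.2} ∧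
    Set.Infinite {q : ℕ × ℕ | IsMaximal 3 2 q.1 q.2} := by
  refine ⟨infinite_of_family 2 4 (fun p hp hp8 => (family hp hp8).1) ?_,
    infinite_of_family 3 2 (fun p hp hp8 => (family hp hp8).2) nu36⟩
  intro h
  have h2 : nuK 2 6 = 6 := nu26
  rw [h2] at h
  omega

end Pool.Agent.Results.MP_c222f6_nt.InfinitelyManyMaximal
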